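import Mathlib

/-!
# The maximum load of local search allocation is not monotone under adding edges

On the complete bipartite graph `K_{2,3}`, adding the edge between the two vertices of degree three
increases the probability that the maximum load after four balls is at least two, from `44 / 625`
to `51 / 625`.
-/

set_option autoImplicit false

open scoped ENNReal

namespace Pool.Agent.Results.MP_61ae3e_pr.NotMonotone

section Defs

variable {V : Type} [Fintype V]

open Classical in
/-- The neighbours of `v` of minimum load if this load is smaller than the load of `v`; the empty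
set if `v` has no neighbour with a smaller load. -/
noncomputable def lower (G : SimpleGraph V) (x : V → ℕ) (v : V) : Finset V :=
  Finset.univ.filter fun u => G.Adj v u ∧ x u < x v ∧ ∀ w, G.Adj v w → x u ≤ x w

open Classical in
/-- One move of the ball: from `v` to a uniformly random neighbour of minimum load if some neighbour
has a smaller load than `v`; the ball stays at `v` if `v` is a local minimum. -/
noncomputable def step (G : SimpleGraph V) (x : V → ℕ) (v : V) : PMF V :=
  if h : (lower G x v).Nonempty then PMF.uniformOfFinset _ h else PMF.pure v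

/-- The law of the local minimum at which a ball with birthplace `v` is placed, the loads `x` being
frozen.  Each move decreases the load of the current vertex, so that the ball has stopped after
`x v` moves. -/
noncomputable def settle (G : SimpleGraph V) (x : V → ℕ) (v : V) : PMF V :=
  (fun p : PMF V => p.bind (step G x))^[x v] (PMF.pure v)

/-- The law of the vertex at which the next ball is placed: the birthplace is uniform. -/
noncomputable def placement [Nonempty V] (G : SimpleGraph V) (x : V → ℕ) : PMF V :=
  (PMF.uniformOfFintype V).bind (settle G x)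

/-- The law of the loads after `m` further balls if the present loads are `x`. -/
noncomputable def evolve [DecidableEq V] [Nonempty V] (G : SimpleGraph V) : ℕ → (V → ℕ) → PMF (V → ℕ)
  | 0, x => PMF.pure x
  | m + 1, x => (placement G x).bind fun u => evolve G m (Function.update x u (x u + 1))

/-- The probability that the maximum load after `m` balls is at least `l`. -/
noncomputable def prob [DecidableEq V] [Nonempty V] (G : SimpleGraph V) (m l : ℕ) : ℝ≥0∞ :=
  (evolve G m fun _ => 0).toOuterMeasure {x | l ≤ Finset.univ.sup x}

end Defs

/-- Adjacency of the two graphs on five vertices. -/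
def adjB (b : Bool) (v u : Fin 5) : Bool :=
  (v.val < 2 && 2 ≤ u.val) || (u.val < 2 && 2 ≤ v.val) ||
    (b && (v.val < 2 && (u.val < 2 && v ≠ u)))

/-- `graph false` is `K_{2,3}` with parts `{0, 1}` and `{2, 3, 4}`; `graph true` has the additional
edge between `0` and `1`. -/
def graph (b : Bool) : SimpleGraph (Fin 5) where
  Adj v u := adjB b v u = true
  symm := ⟨by revert b; decide⟩
  loopless := ⟨by revert b; decide⟩

/-- The neighbours. -/
def nbr (b : Bool) (v : Fin 5) : Finset (Fin 5) := Finset.univ.filter fun u => adjB b v u = true

/-- The probability of a load at least two after `k` further balls, the present loads being the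
indicator function of `S`. -/
def Q (b : Bool) : ℕ → Finset (Fin 5) → ℚ
  | 0, _ => 0
  | k + 1, S => (1 / 5) * ∑ v : Fin 5, if v ∉ S then Q b k (insert v S) else
      if nbr b v \ S = ∅ then 1 else (∑ u ∈ nbr b v \ S, Q b k (insert u S)) / (nbr b v \ S).card

/-- The indicator function of `S`. -/
def ind (S : Finset (Fin 5)) : Fin 5 → ℕ := fun v => if v ∈ S then 1 else 0

/-- The event. -/
def E : Set (Fin 5 → ℕ) := {x | 2 ≤ Finset.univ.sup x}

theorem mem_E {x : Fin 5 → ℕ} : x ∈ E ↔ ∃ v, 2 ≤ x v := by
  unfold E
  rw [Set.mem_setOf_eq, Finset.le_sup_iff (by norm_num)]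
  simp

theorem heavy (G : SimpleGraph (Fin 5)) (k : ℕ) : ∀ x : Fin 5 → ℕ, (∃ v, 2 ≤ x v) →
    (evolve G k x).toOuterMeasure E = 1 := by
  classical
  induction k with
  | zero =>
    intro x hx
    rw [evolve, PMF.toOuterMeasure_pure_apply, if_pos (mem_E.2 hx)]
  | succ k ih =>
    intro x ⟨v, hv⟩
    rw [PMF.toOuterMeasure_apply_eq_one_iff]
    intro y hy
    rw [evolve, PMF.mem_support_bind_iff] at hy
    obtain ⟨u, -, hy⟩ := hy
    have h := ih (Function.update x u (x u + 1)) ⟨v, by
      by_cases h : v = u
      · subst h; rw [Function.update_self]; omega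
      · rw [Function.update_of_ne h]; exact hv⟩
    rw [PMF.toOuterMeasure_apply_eq_one_iff] at h
    exact h hy

theorem Q_nonneg (b : Bool) : ∀ (k : ℕ) (S : Finset (Fin 5)), 0 ≤ Q b k S := by
  intro k
  induction k with
  | zero => intro S; simp [Q]
  | succ k ih =>
    intro S
    rw [Q]
    refine mul_nonneg (by norm_num) (Finset.sum_nonneg fun v _ => ?_)
    by_cases hv : v ∉ S
    · rw [if_pos hv]; exact ih _
    · rw [if_neg hv]
      by_cases he : nbr b v \ S = ∅
      · rw [if_pos he]; norm_num
      · rw [if_neg he]
        exact div_nonneg (Finset.sum_nonneg fun u _ => ih _) (Nat.cast_nonneg _)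

theorem lower_ind (b : Bool) (S : Finset (Fin 5)) {v : Fin 5} (hv : v ∈ S) :
    lower (graph b) (ind S) v = nbr b v \ S := by
  classical
  ext u
  simp only [lower, nbr, ind, graph, hv, if_true, Finset.mem_filter, Finset.mem_univ, true_and,
    Finset.mem_sdiff]
  constructor
  · rintro ⟨h1, h2, -⟩
    refine ⟨h1, fun h => ?_⟩
    rw [if_pos h] at h2
    omega
  · rintro ⟨h1, h2⟩
    rw [if_neg h2]
    exact ⟨h1, by norm_num, fun w _ => Nat.zero_le _⟩

theorem settle_in (b : Bool) (S : Finset (Fin 5)) {v : Fin 5} (hv : v ∈ S) :
    settle (graph b) (ind S) v = step (graph b) (ind S) v := by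
  unfold settle
  have : ind S v = 1 := by simp [ind, hv]
  rw [this, Function.iterate_one, PMF.pure_bind]

theorem settle_out (b : Bool) (S : Finset (Fin 5)) {v : Fin 5} (hv : v ∉ S) :
    settle (graph b) (ind S) v = PMF.pure v := by
  unfold settle
  have : ind S v = 0 := by simp [ind, hv]
  rw [this, Function.iterate_zero, id]

theorem update_ind (S : Finset (Fin 5)) {u : Fin 5} (hu : u ∉ S) :
    Function.update (ind S) u (ind S u + 1) = ind (insert u S) := by
  funext w
  by_cases h : w = u
  · subst h
    rw [Function.update_self]
    simp [ind, hu]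
  · rw [Function.update_of_ne h]
    simp [ind, h]

theorem main (b : Bool) : ∀ (k : ℕ) (S : Finset (Fin 5)),
    (evolve (graph b) k (ind S)).toOuterMeasure E = ENNReal.ofReal ((Q b k S : ℚ) : ℝ) := by
  classical
  intro k
  induction k with
  | zero =>
    intro S
    rw [evolve, PMF.toOuterMeasure_pure_apply, if_neg]
    · simp [Q]
    · rw [mem_E]
      rintro ⟨v, hv⟩
      unfold ind at hv
      split_ifs at hv <;> omega
  | succ k ih =>
    intro S
    rw [evolve, placement, PMF.bind_bind, PMF.toOuterMeasure_bind_apply, tsum_fintype, Q]
    have hterm : ∀ v : Fin 5, ((settle (graph b) (ind S) v).bind fun u =>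
        evolve (graph b) k (Function.update (ind S) u (ind S u + 1))).toOuterMeasure E =
        ENNReal.ofReal (((if v ∉ S then Q b k (insert v S) else
          if nbr b v \ S = ∅ then 1 else
            (∑ u ∈ nbr b v \ S, Q b k (insert u S)) / (nbr b v \ S).card : ℚ)) : ℝ) := by
      intro v
      by_cases hv : v ∉ S
      · rw [if_pos hv, settle_out b S hv, PMF.pure_bind, update_ind S hv, ih]
      · rw [if_neg hv]
        push Not at hv
        rw [settle_in b S hv, step, lower_ind b S hv]
        by_cases he : nbr b v \ S = ∅
        · rw [if_pos he, dif_neg (by rw [he]; simp), PMF.pure_bind, heavy]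
          · simp
          · exact ⟨v, by rw [Function.update_self]; simp [ind, hv]⟩
        · have hne : (nbr b v \ S).Nonempty := Finset.nonempty_iff_ne_empty.2 he
          rw [if_neg he, dif_pos hne, PMF.toOuterMeasure_bind_apply, tsum_fintype]
          have hc : (0 : ℝ) < ((nbr b v \ S).card : ℝ) := by
            exact_mod_cast Finset.card_pos.2 hne
          calc ∑ u, (PMF.uniformOfFinset (nbr b v \ S) hne) u *
              (evolve (graph b) k (Function.update (ind S) u (ind S u + 1))).toOuterMeasure E
              = ∑ u ∈ nbr b v \ S, ENNReal.ofReal ((nbr b v \ S).card : ℝ)⁻¹ *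
                  ENNReal.ofReal ((Q b k (insert u S) : ℚ) : ℝ) := by
                rw [← Finset.sum_subset (Finset.subset_univ (nbr b v \ S))]
                · refine Finset.sum_congr rfl fun u hu => ?_
                  rw [PMF.uniformOfFinset_apply_of_mem _ hu,
                    update_ind S (Finset.mem_sdiff.1 hu).2, ih,
                    ENNReal.ofReal_inv_of_pos hc, ENNReal.ofReal_natCast]
                · intro u _ hu
                  rw [PMF.uniformOfFinset_apply_of_notMem _ hu, zero_mul]
            _ = _ := by
                rw [← Finset.mul_sum, ← ENNReal.ofReal_sum_of_nonneg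
                  (fun u _ => by exact_mod_cast Q_nonneg b k _),
                  ← ENNReal.ofReal_mul (by positivity)]
                congr 1
                push_cast
                rw [div_eq_inv_mul]
    simp only [hterm, PMF.uniformOfFintype_apply, Fintype.card_fin]
    rw [← Finset.mul_sum, ← ENNReal.ofReal_sum_of_nonneg]
    · have h5 : (((5 : ℕ) : ℝ≥0∞))⁻¹ = ENNReal.ofReal (1 / 5 : ℝ) := by
        rw [one_div, ENNReal.ofReal_inv_of_pos (by norm_num)]
        norm_num
      rw [h5, ← ENNReal.ofReal_mul (by norm_num)]
      congr 1
      push_cast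
      rfl
    · intro v _
      have : (0 : ℚ) ≤ (if v ∉ S then Q b k (insert v S) else
          if nbr b v \ S = ∅ then 1 else
            (∑ u ∈ nbr b v \ S, Q b k (insert u S)) / (nbr b v \ S).card : ℚ) := by
        by_cases hv : v ∉ S
        · rw [if_pos hv]; exact Q_nonneg b k _
        · rw [if_neg hv]
          by_cases he : nbr b v \ S = ∅
          · rw [if_pos he]; norm_num
          · rw [if_neg he]
            exact div_nonneg (Finset.sum_nonneg fun u _ => Q_nonneg b k _) (Nat.cast_nonneg _)
      exact_mod_cast this

theorem value (b : Bool) : prob (graph b) 4 2 = ENNReal.ofReal ((Q b 4 ∅ : ℚ) : ℝ) := by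
  rw [← main b 4 ∅]
  have : (fun _ => 0 : Fin 5 → ℕ) = ind ∅ := by funext v; simp [ind]
  unfold prob
  rw [this]
  rfl

theorem Qf : Q false 4 ∅ = 44 / 625 := by decide +kernel

theorem Qt : Q true 4 ∅ = 51 / 625 := by decide +kernel

/-- **Q1 has a negative answer.** There are graphs `G ⊆ G'` on five vertices, with six and seven
edges, such that the probability that the maximum load after four balls is at least two is
`44 / 625` for `G` and `51 / 625` for `G'`; so the maximum load of `G'` is not stochastically
dominated by that of `G`. -/
theorem result : ∃ G G' : SimpleGraph (Fin 5), G ≤ G' ∧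
    prob G 4 2 = ENNReal.ofReal (44 / 625) ∧ prob G' 4 2 = ENNReal.ofReal (51 / 625) ∧
    prob G 4 2 < prob G' 4 2 := by
  have h1 : prob (graph false) 4 2 = ENNReal.ofReal (44 / 625) := by
    rw [value, Qf]; norm_num
  have h2 : prob (graph true) 4 2 = ENNReal.ofReal (51 / 625) := by
    rw [value, Qt]; norm_num
  refine ⟨graph false, graph true, ?_, h1, h2, ?_⟩
  · intro v u
    show adjB false v u = true → adjB true v u = true
    revert v u
    decide
  · rw [h1, h2, ENNReal.ofReal_lt_ofReal_iff (by norm_num)]
    norm_num

end Pool.Agent.Results.MP_61ae3e_pr.NotMonotone
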